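import Mathlib

set_option autoImplicit false

/-!
# The local inequality for five lines through a point with a common involution

`a + b = c + e` in the affine coordinate where the fifth point `g` is infinity: the involution
`z ↦ (a + b) - z` fixes `g` and exchanges `a, b` and `c, e`.  With
`q(z, w) = |1 + z conj w|² / ((1 + |z|²) (1 + |w|²))` and `q(z, g) = |z|² / (1 + |z|²)`,
`(q_ac + q_ae + q_bc + q_be) / 4 + (q_ag + q_bg) / 2 + (q_cg + q_eg) / 2 ≥ 1`,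
strictly if `a ≠ b` and `c ≠ e`.
-/

namespace Pool.Agent.Lib.H16V.Local

open Complex ComplexConjugate

/-- half angle 45 degrees cone around `(0, 0, 1)`, real form; strict. -/
theorem cone_vertical {x y z x' y' z' : ℝ} (hz : 0 < z) (hz' : 0 < z')
    (h : x ^ 2 + y ^ 2 < z ^ 2) (h' : x' ^ 2 + y' ^ 2 < z' ^ 2) :
    0 < x * x' + y * y' + z * z' := by
  have h1 : (x * x' + y * y') ^ 2 ≤ (x ^ 2 + y ^ 2) * (x' ^ 2 + y' ^ 2) := by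
    nlinarith [sq_nonneg (x * y' - y * x')]
  have h2 : (x ^ 2 + y ^ 2) * (x' ^ 2 + y' ^ 2) < z ^ 2 * z' ^ 2 := by
    have h3 : 0 ≤ x ^ 2 + y ^ 2 := by positivity
    have h4 : 0 ≤ x' ^ 2 + y' ^ 2 := by positivity
    have h5 : 0 < z ^ 2 := by positivity
    nlinarith [mul_le_mul_of_nonneg_left h'.le h3, mul_lt_mul_of_pos_right h h5]
  have h6 : (x * x' + y * y') ^ 2 < (z * z') ^ 2 := by
    calc (x * x' + y * y') ^ 2 < z ^ 2 * z' ^ 2 := lt_of_le_of_lt h1 h2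
      _ = (z * z') ^ 2 := by ring
  have h7 := abs_lt_of_sq_lt_sq h6 (by positivity)
  have h8 := (abs_lt.mp h7).1
  linarith

/-- The tilted cone. -/
theorem cone_tilted {s x y z x' y' z' : ℝ}
    (hA : 0 < x + s * z) (hB : 0 < z - s * x) (hA' : 0 < x' + s * z') (hB' : 0 < z' - s * x')
    (h : (1 + s ^ 2) * y ^ 2 < 2 * ((x + s * z) * (z - s * x)))
    (h' : (1 + s ^ 2) * y' ^ 2 < 2 * ((x' + s * z') * (z' - s * x'))) :
    0 < x * x' + y * y' + z * z' := by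
  set A := x + s * z with hAd
  set B := z - s * x with hBd
  set A' := x' + s * z' with hAd'
  set B' := z' - s * x' with hBd'
  have hs : 0 < 1 + s ^ 2 := by positivity
  have key : (1 + s ^ 2) * (x * x' + y * y' + z * z') = A * A' + B * B' + (1 + s ^ 2) * (y * y') := by
    rw [hAd, hBd, hAd', hBd']; ring
  have hAB : 0 < A * B := mul_pos hA hB
  have hAB' : 0 < A' * B' := mul_pos hA' hB'
  have h1 : ((1 + s ^ 2) * (y * y')) ^ 2 < (A * A' + B * B') ^ 2 := by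
    have e1 : ((1 + s ^ 2) * (y * y')) ^ 2 = ((1 + s ^ 2) * y ^ 2) * ((1 + s ^ 2) * y' ^ 2) := by ring
    have e2 : ((1 + s ^ 2) * y ^ 2) * ((1 + s ^ 2) * y' ^ 2) < (2 * (A * B)) * (2 * (A' * B')) := by
      have h3 : 0 ≤ (1 + s ^ 2) * y ^ 2 := by positivity
      have h5 : 0 < 2 * (A' * B') := by positivity
      nlinarith [mul_le_mul_of_nonneg_left h'.le h3, mul_lt_mul_of_pos_right h h5]
    have e3 : (2 * (A * B)) * (2 * (A' * B')) ≤ (A * A' + B * B') ^ 2 := by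
      nlinarith [sq_nonneg (A * A' - B * B')]
    rw [e1]
    exact lt_of_lt_of_le e2 e3
  have h2 : 0 ≤ A * A' + B * B' := by positivity
  have h3 := (abs_lt.mp (abs_lt_of_sq_lt_sq h1 h2)).1
  have h4 : 0 < (1 + s ^ 2) * (x * x' + y * y' + z * z') := by rw [key]; linarith
  exact (mul_pos_iff_of_pos_left hs).mp h4

/-- Case `1 ≤ s`. -/
theorem vert_of_one_le {s p q d : ℝ} (hs : 1 ≤ s) (hd : 0 < d)
    (hdd : d ^ 2 = (p - s ^ 2) ^ 2 + q ^ 2) :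
    (s * (1 + p)) ^ 2 + (s * q) ^ 2 < (s ^ 2 + d + (p ^ 2 + q ^ 2)) ^ 2 := by
  obtain ⟨r, hr0, hr⟩ : ∃ r : ℝ, 0 ≤ r ∧ r ^ 2 = p ^ 2 + q ^ 2 :=
    ⟨Real.sqrt (p ^ 2 + q ^ 2), Real.sqrt_nonneg _, Real.sq_sqrt (by positivity)⟩
  have hpr : p ≤ r := by
    by_contra hcon
    push Not at hcon
    nlinarith [sq_nonneg q]
  have hdr : s ^ 2 - r ≤ d := by
    by_contra hcon
    push Not at hcon
    have h1 : d ^ 2 < (s ^ 2 - r) ^ 2 := by nlinarith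
    have h2 : (s ^ 2 - r) ^ 2 ≤ d ^ 2 := by
      rw [hdd]; nlinarith [sq_nonneg s, mul_le_mul_of_nonneg_left hpr (sq_nonneg s)]
    linarith
  have hF : s * (1 + r) < s ^ 2 + d + r ^ 2 := by
    rcases eq_or_lt_of_le hs with h1 | h1
    · subst h1
      by_cases hr1 : r = 1
      · subst hr1; linarith
      · have : 0 < (r - 1) ^ 2 := by
          have : r - 1 ≠ 0 := sub_ne_zero.mpr hr1
          positivity
        nlinarith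
    · nlinarith [sq_nonneg (r - (1 + s) / 2), mul_pos (sub_pos.mpr h1) (by linarith : (0:ℝ) < 7 * s + 1)]
  have h0 : 0 ≤ s * (1 + r) := by positivity
  have h2 : (s * (1 + r)) ^ 2 < (s ^ 2 + d + r ^ 2) ^ 2 := by nlinarith
  rw [← hr]
  have h3 : (s * (1 + p)) ^ 2 + (s * q) ^ 2 ≤ (s * (1 + r)) ^ 2 := by
    have : (s * (1 + p)) ^ 2 + (s * q) ^ 2 = s ^ 2 * (1 + 2 * p + r ^ 2) := by rw [hr]; ring
    rw [this]
    nlinarith [mul_le_mul_of_nonneg_left hpr (sq_nonneg s)]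
  linarith

/-- Case `s ≤ 1`: the three inequalities for the tilted cone. -/
theorem tilt_of_le_one {s p q d : ℝ} (hs0 : 0 < s) (hs : s ≤ 1) (hd : 0 < d)
    (hdd : d ^ 2 = (p - s ^ 2) ^ 2 + q ^ 2) :
    0 < s * (1 + p) + s * (s ^ 2 + d + (p ^ 2 + q ^ 2)) ∧
    0 < (s ^ 2 + d + (p ^ 2 + q ^ 2)) - s * (s * (1 + p)) ∧
    (1 + s ^ 2) * (s * q) ^ 2 < 2 * ((s * (1 + p) + s * (s ^ 2 + d + (p ^ 2 + q ^ 2))) *
      ((s ^ 2 + d + (p ^ 2 + q ^ 2)) - s * (s * (1 + p)))) := by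
  have hRe : -d ≤ p - s ^ 2 := by
    by_contra hcon
    push Not at hcon
    nlinarith [sq_nonneg q]
  have hs2 : s ^ 2 ≤ s := by nlinarith
  have hs21 : s ^ 2 ≤ 1 := by nlinarith
  have hA : s * (1 + 2 * s ^ 2) ≤ s * (1 + p) + s * (s ^ 2 + d + (p ^ 2 + q ^ 2)) := by
    have : 1 + 2 * s ^ 2 ≤ (1 + p) + (s ^ 2 + d + (p ^ 2 + q ^ 2)) := by
      nlinarith [sq_nonneg p, sq_nonneg q]
    calc s * (1 + 2 * s ^ 2) ≤ s * ((1 + p) + (s ^ 2 + d + (p ^ 2 + q ^ 2))) :=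
          mul_le_mul_of_nonneg_left this hs0.le
      _ = _ := by ring
  have hB : d ^ 2 ≤ (s ^ 2 + d + (p ^ 2 + q ^ 2)) - s * (s * (1 + p)) := by
    have e : (s ^ 2 + d + (p ^ 2 + q ^ 2)) - s * (s * (1 + p)) = d + d ^ 2 + s ^ 2 * (p - s ^ 2) := by
      rw [hdd]; ring
    rw [e]
    nlinarith [mul_le_mul_of_nonneg_left hRe (sq_nonneg s), mul_le_mul_of_nonneg_right hs21 hd.le]
  have hA0 : 0 < s * (1 + 2 * s ^ 2) := by positivity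
  have hd2 : 0 < d ^ 2 := by positivity
  have hqd : q ^ 2 ≤ d ^ 2 := by rw [hdd]; nlinarith [sq_nonneg (p - s ^ 2)]
  refine ⟨by linarith, by linarith, ?_⟩
  have h1 : s * (1 + 2 * s ^ 2) * d ^ 2 ≤ (s * (1 + p) + s * (s ^ 2 + d + (p ^ 2 + q ^ 2))) *
      ((s ^ 2 + d + (p ^ 2 + q ^ 2)) - s * (s * (1 + p))) :=
    mul_le_mul hA hB hd2.le (by linarith)
  have h2 : (1 + s ^ 2) * (s * q) ^ 2 ≤ (1 + s ^ 2) * s * d ^ 2 := by
    have : (s * q) ^ 2 ≤ s * d ^ 2 := by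
      calc (s * q) ^ 2 = s ^ 2 * q ^ 2 := by ring
        _ ≤ s * d ^ 2 := mul_le_mul hs2 hqd (sq_nonneg q) hs0.le
    calc (1 + s ^ 2) * (s * q) ^ 2 ≤ (1 + s ^ 2) * (s * d ^ 2) :=
          mul_le_mul_of_nonneg_left this (by positivity)
      _ = _ := by ring
  have h3 : (1 + s ^ 2) * s * d ^ 2 < 2 * (s * (1 + 2 * s ^ 2) * d ^ 2) := by
    have : 0 < s * d ^ 2 := by positivity
    nlinarith [mul_pos this (by positivity : (0:ℝ) < 1 + 3 * s ^ 2)]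
  linarith

/-- The core inequality, in real coordinates. -/
theorem core_real {s p q d p' q' d' : ℝ} (hs : 0 ≤ s) (hd : 0 < d) (hd' : 0 < d')
    (hdd : d ^ 2 = (p - s ^ 2) ^ 2 + q ^ 2) (hdd' : d' ^ 2 = (p' - s ^ 2) ^ 2 + q' ^ 2) :
    0 < (s * (1 + p)) * (s * (1 + p')) + (s * q) * (s * q') +
      (s ^ 2 + d + (p ^ 2 + q ^ 2)) * (s ^ 2 + d' + (p' ^ 2 + q' ^ 2)) := by
  have hz : 0 < s ^ 2 + d + (p ^ 2 + q ^ 2) := by positivity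
  have hz' : 0 < s ^ 2 + d' + (p' ^ 2 + q' ^ 2) := by positivity
  rcases eq_or_lt_of_le hs with h0 | h0
  · subst h0
    have := mul_pos hz hz'
    nlinarith
  rcases le_total s 1 with h1 | h1
  · obtain ⟨a1, a2, a3⟩ := tilt_of_le_one h0 h1 hd hdd
    obtain ⟨b1, b2, b3⟩ := tilt_of_le_one h0 h1 hd' hdd'
    exact cone_tilted a1 a2 b1 b2 a3 b3
  · exact cone_vertical hz hz' (vert_of_one_le h1 hd hdd) (vert_of_one_le h1 hd' hdd')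

/-- The core inequality, complex form: `s ≥ 0` real, `w, w'` complex, both `≠ s²`. -/
theorem core_complex {s : ℝ} (hs : 0 ≤ s) {w w' : ℂ} (hw : w ≠ (s : ℂ) ^ 2)
    (hw' : w' ≠ (s : ℂ) ^ 2) :
    0 < s ^ 2 * ((1 + w) * conj (1 + w')).re +
      (s ^ 2 + ‖(s : ℂ) ^ 2 - w‖ + ‖w‖ ^ 2) * (s ^ 2 + ‖(s : ℂ) ^ 2 - w'‖ + ‖w'‖ ^ 2) := by
  have hn : ∀ v : ℂ, ‖v‖ ^ 2 = v.re ^ 2 + v.im ^ 2 := by
    intro v
    rw [← Complex.normSq_eq_norm_sq, Complex.normSq_apply]; ring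
  have hd : ∀ v : ℂ, ‖(s : ℂ) ^ 2 - v‖ ^ 2 = (v.re - s ^ 2) ^ 2 + v.im ^ 2 := by
    intro v
    rw [hn]
    have e1 : ((s : ℂ) ^ 2 - v).re = s ^ 2 - v.re := by
      simp [← Complex.ofReal_pow]
    have e2 : ((s : ℂ) ^ 2 - v).im = - v.im := by
      simp [← Complex.ofReal_pow]
    rw [e1, e2]; ring
  have p1 : 0 < ‖(s : ℂ) ^ 2 - w‖ := norm_pos_iff.mpr (sub_ne_zero.mpr (Ne.symm hw))
  have p2 : 0 < ‖(s : ℂ) ^ 2 - w'‖ := norm_pos_iff.mpr (sub_ne_zero.mpr (Ne.symm hw'))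
  have := core_real hs p1 p2 (hd w) (hd w')
  rw [hn w, hn w']
  have e3 : ((1 + w) * conj (1 + w')).re = (1 + w.re) * (1 + w'.re) + w.im * w'.im := by
    simp [Complex.mul_re]
  rw [e3]
  nlinarith [this]

/-- The core inequality for an arbitrary midpoint `m`. -/
theorem core_mid {m u v : ℂ} (hu : u ≠ 0) (hv : v ≠ 0) :
    0 < ((m + (m ^ 2 - u ^ 2) * conj m) * conj (m + (m ^ 2 - v ^ 2) * conj m)).re +
      (‖m‖ ^ 2 + ‖u‖ ^ 2 + ‖m ^ 2 - u ^ 2‖ ^ 2) * (‖m‖ ^ 2 + ‖v‖ ^ 2 + ‖m ^ 2 - v ^ 2‖ ^ 2) := by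
  obtain ⟨ζ, hζ, hm⟩ : ∃ ζ : ℂ, ζ * conj ζ = 1 ∧ m = ‖m‖ * ζ := by
    by_cases h : m = 0
    · exact ⟨1, by simp, by simp [h]⟩
    · refine ⟨m / ‖m‖, ?_, ?_⟩
      · have h1 : (‖m‖ : ℂ) ≠ 0 := by simpa using h
        rw [map_div₀, Complex.conj_ofReal, div_mul_div_comm, Complex.mul_conj,
          Complex.normSq_eq_norm_sq]
        push_cast
        field_simp
      · have h1 : (‖m‖ : ℂ) ≠ 0 := by simpa using h
        field_simp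
  set s : ℝ := ‖m‖ with hs
  have hs0 : 0 ≤ s := norm_nonneg m
  have hζn : ‖ζ‖ = 1 := by
    have : ‖ζ‖ ^ 2 = 1 := by
      rw [Complex.mul_conj, Complex.normSq_eq_norm_sq] at hζ
      exact_mod_cast hζ
    nlinarith [norm_nonneg ζ]
  have hζ0 : ζ ≠ 0 := by
    intro h; rw [h] at hζn; simp at hζn
  have hcn : ‖conj ζ‖ = 1 := by rw [RCLike.norm_conj]; exact hζn
  -- the rotated product
  have key : ∀ t : ℂ, t ≠ 0 → conj ζ ^ 2 * (m ^ 2 - t ^ 2) ≠ (s : ℂ) ^ 2 := by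
    intro t ht hcon
    have h1 : (conj ζ) ^ 2 * t ^ 2 = 0 := by
      have h2 : conj ζ ^ 2 * m ^ 2 = (s : ℂ) ^ 2 := by
        rw [hm]
        calc conj ζ ^ 2 * ((s : ℂ) * ζ) ^ 2 = (s : ℂ) ^ 2 * (ζ * conj ζ) ^ 2 := by ring
          _ = _ := by rw [hζ]; ring
      linear_combination h2 - hcon
    have h3 : conj ζ ≠ 0 := by
      intro h; rw [h] at hcn; simp at hcn
    exact (mul_ne_zero (pow_ne_zero 2 h3) (pow_ne_zero 2 ht)) h1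
  have e1 : ∀ t : ℂ, ‖(s : ℂ) ^ 2 - conj ζ ^ 2 * (m ^ 2 - t ^ 2)‖ = ‖t‖ ^ 2 := by
    intro t
    have : (s : ℂ) ^ 2 - conj ζ ^ 2 * (m ^ 2 - t ^ 2) = conj ζ ^ 2 * t ^ 2 := by
      have h2 : conj ζ ^ 2 * m ^ 2 = (s : ℂ) ^ 2 := by
        rw [hm]
        calc conj ζ ^ 2 * ((s : ℂ) * ζ) ^ 2 = (s : ℂ) ^ 2 * (ζ * conj ζ) ^ 2 := by ring
          _ = _ := by rw [hζ]; ring
      linear_combination - h2
    rw [this, norm_mul, norm_pow, norm_pow, hcn]; ring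
  have e2 : ∀ t : ℂ, ‖conj ζ ^ 2 * (m ^ 2 - t ^ 2)‖ = ‖m ^ 2 - t ^ 2‖ := by
    intro t
    rw [norm_mul, norm_pow, hcn]; ring
  have e3 : ∀ t : ℂ, m + (m ^ 2 - t ^ 2) * conj m =
      (s : ℂ) * ζ * (1 + conj ζ ^ 2 * (m ^ 2 - t ^ 2)) := by
    intro t
    have hc : conj m = (s : ℂ) * conj ζ := by
      conv_lhs => rw [hm]
      rw [map_mul, Complex.conj_ofReal]
    rw [hc]
    have : (s : ℂ) * ζ * (1 + conj ζ ^ 2 * (m ^ 2 - t ^ 2)) =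
        (s : ℂ) * ζ + (ζ * conj ζ) * ((m ^ 2 - t ^ 2) * ((s : ℂ) * conj ζ)) := by ring
    rw [this, hζ, one_mul, ← hm]
  have h := core_complex hs0 (key u hu) (key v hv)
  rw [e1, e1, e2, e2] at h
  have e4 : ((m + (m ^ 2 - u ^ 2) * conj m) * conj (m + (m ^ 2 - v ^ 2) * conj m)).re =
      s ^ 2 * ((1 + conj ζ ^ 2 * (m ^ 2 - u ^ 2)) * conj (1 + conj ζ ^ 2 * (m ^ 2 - v ^ 2))).re := by
    rw [e3 u, e3 v]
    have : (s : ℂ) * ζ * (1 + conj ζ ^ 2 * (m ^ 2 - u ^ 2)) *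
        conj ((s : ℂ) * ζ * (1 + conj ζ ^ 2 * (m ^ 2 - v ^ 2))) =
        ((s ^ 2 : ℝ) : ℂ) * ((1 + conj ζ ^ 2 * (m ^ 2 - u ^ 2)) *
          conj (1 + conj ζ ^ 2 * (m ^ 2 - v ^ 2))) := by
      rw [map_mul (starRingEnd ℂ) ((s : ℂ) * ζ), map_mul (starRingEnd ℂ) (s : ℂ) ζ,
        Complex.conj_ofReal]
      push_cast
      linear_combination ((s : ℂ) ^ 2 * (1 + conj ζ ^ 2 * (m ^ 2 - u ^ 2)) *
          conj (1 + conj ζ ^ 2 * (m ^ 2 - v ^ 2))) * hζ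
    rw [this, Complex.re_ofReal_mul]
  rw [e4]
  exact h

/-- The local inequality, affine coordinates with the fifth point at infinity, cleared of
denominators.  `N z = 1 + ‖z‖²`. -/
theorem local_affine {a b c e : ℂ} (h : a + b = c + e) (hab : a ≠ b) (hce : c ≠ e) :
    1 < (1 / 4) * (‖1 + a * conj c‖ ^ 2 / ((1 + ‖a‖ ^ 2) * (1 + ‖c‖ ^ 2)) +
        ‖1 + a * conj e‖ ^ 2 / ((1 + ‖a‖ ^ 2) * (1 + ‖e‖ ^ 2)) +
        ‖1 + b * conj c‖ ^ 2 / ((1 + ‖b‖ ^ 2) * (1 + ‖c‖ ^ 2)) +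
        ‖1 + b * conj e‖ ^ 2 / ((1 + ‖b‖ ^ 2) * (1 + ‖e‖ ^ 2))) +
      (1 / 2) * (‖a‖ ^ 2 / (1 + ‖a‖ ^ 2) + ‖b‖ ^ 2 / (1 + ‖b‖ ^ 2)) +
      (1 / 2) * (‖c‖ ^ 2 / (1 + ‖c‖ ^ 2) + ‖e‖ ^ 2 / (1 + ‖e‖ ^ 2)) := by
  obtain ⟨m, u, v, rfl, rfl, rfl, rfl⟩ : ∃ m u v : ℂ, a = m + u ∧ b = m - u ∧ c = m + v ∧
      e = m - v := by
    refine ⟨(a + b) / 2, (a - b) / 2, (c - e) / 2, by ring, by ring, ?_, ?_⟩
    · rw [h]; ring
    · rw [h]; ring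
  have hu : u ≠ 0 := by
    rintro rfl
    exact hab (by ring)
  have hv : v ≠ 0 := by
    rintro rfl
    exact hce (by ring)
  have hcore := core_mid (m := m) hu hv
  have hn : ∀ v : ℂ, ‖v‖ ^ 2 = v.re ^ 2 + v.im ^ 2 := by
    intro v
    rw [← Complex.normSq_eq_norm_sq, Complex.normSq_apply]; ring
  have hNa : 0 < 1 + ‖m + u‖ ^ 2 := by positivity
  have hNb : 0 < 1 + ‖m - u‖ ^ 2 := by positivity
  have hNc : 0 < 1 + ‖m + v‖ ^ 2 := by positivity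
  have hNe : 0 < 1 + ‖m - v‖ ^ 2 := by positivity
  have key : (1 / 4) * (‖1 + (m + u) * conj (m + v)‖ ^ 2 / ((1 + ‖m + u‖ ^ 2) * (1 + ‖m + v‖ ^ 2)) +
        ‖1 + (m + u) * conj (m - v)‖ ^ 2 / ((1 + ‖m + u‖ ^ 2) * (1 + ‖m - v‖ ^ 2)) +
        ‖1 + (m - u) * conj (m + v)‖ ^ 2 / ((1 + ‖m - u‖ ^ 2) * (1 + ‖m + v‖ ^ 2)) +
        ‖1 + (m - u) * conj (m - v)‖ ^ 2 / ((1 + ‖m - u‖ ^ 2) * (1 + ‖m - v‖ ^ 2))) +
      (1 / 2) * (‖m + u‖ ^ 2 / (1 + ‖m + u‖ ^ 2) + ‖m - u‖ ^ 2 / (1 + ‖m - u‖ ^ 2)) +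
      (1 / 2) * (‖m + v‖ ^ 2 / (1 + ‖m + v‖ ^ 2) + ‖m - v‖ ^ 2 / (1 + ‖m - v‖ ^ 2)) = 1 +
      2 * (((m + (m ^ 2 - u ^ 2) * conj m) * conj (m + (m ^ 2 - v ^ 2) * conj m)).re +
      (‖m‖ ^ 2 + ‖u‖ ^ 2 + ‖m ^ 2 - u ^ 2‖ ^ 2) * (‖m‖ ^ 2 + ‖v‖ ^ 2 + ‖m ^ 2 - v ^ 2‖ ^ 2)) /
      ((1 + ‖m + u‖ ^ 2) * (1 + ‖m - u‖ ^ 2) * (1 + ‖m + v‖ ^ 2) * (1 + ‖m - v‖ ^ 2)) := by
    rw [← sub_eq_zero]
    field_simp
    simp only [hn]
    obtain ⟨m1, m2⟩ := m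
    obtain ⟨u1, u2⟩ := u
    obtain ⟨v1, v2⟩ := v
    simp only [Complex.add_re, Complex.add_im, Complex.sub_re, Complex.sub_im, Complex.mul_re,
      Complex.mul_im, Complex.conj_re, Complex.conj_im, Complex.one_re, Complex.one_im, pow_two]
    ring
  rw [key]
  have := div_pos (mul_pos two_pos hcore) (mul_pos (mul_pos (mul_pos hNa hNb) hNc) hNe)
  linarith

end Pool.Agent.Lib.H16V.Local
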